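import Pool.Agent.Helper138_QS.ArithU
import Pool.Agent.Helper138_QS.Bound

/-!
MP_6202c5_co, Q1: a quasi-symmetric 3-design with block intersection numbers `x < y`, `x ≥ 3`, satisfies
`y - x < x ^ 2 * (x - 1)`.
-/

set_option autoImplicit false

open Finset

namespace Pool.Agent.Results.MP_6202c5_co.DifferenceBound

/-- `𝓑` is the set of blocks of a `3-(v, k, l)` design without repeated blocks on the point set `V`: all blocks have
`k` points, and every three points are contained in exactly `l` blocks -/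
def IsThreeDesign {V : Type*} [Fintype V] [DecidableEq V] (𝓑 : Finset (Finset V)) (k l : ℕ) : Prop :=
  (∀ B ∈ 𝓑, B.card = k) ∧ ∀ T : Finset V, T.card = 3 → (𝓑.filter fun B => T ⊆ B).card = l

/-- the set of block intersection numbers -/
def intersectionNumbers {V : Type*} [DecidableEq V] (𝓑 : Finset (Finset V)) : Set ℕ :=
  {n | ∃ B ∈ 𝓑, ∃ B' ∈ 𝓑, B ≠ B' ∧ (B ∩ B').card = n}

/-- Every quasi-symmetric `3-(v, k, l)` design with `3 < k < v - 3` and block intersection numbers `x < y`, where
`x ≥ 3`, satisfies `y - x < x ^ 2 * (x - 1)`. -/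
theorem result {V : Type*} [Fintype V] [DecidableEq V] {𝓑 : Finset (Finset V)} {k l : ℕ}
    (h : IsThreeDesign 𝓑 k l) (hk : 3 < k) (hv : k + 3 < Fintype.card V) {x y : ℕ} (hx : 3 ≤ x)
    (hxy : x < y) (he : intersectionNumbers 𝓑 = {x, y}) : y - x < x ^ 2 * (x - 1) := by
  have hx' : x ∈ intersectionNumbers 𝓑 := by rw [he]; exact Set.mem_insert _ _
  have hy' : y ∈ intersectionNumbers 𝓑 := by rw [he]; exact Set.mem_insert_of_mem _ rfl
  have hQ : Helper138QS.X.QS 𝓑 k l x y := by
    refine ⟨h.1, h.2, fun B hB B' hB' hne => ?_, hx', hy', hxy, hk.le, by omega⟩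
    have hm : (B ∩ B').card ∈ intersectionNumbers 𝓑 := ⟨B, hB, B', hB', hne, rfl⟩
    rw [he] at hm
    simpa using hm
  have hquad := hQ.quad (by omega)
  obtain ⟨m, hm, hkm⟩ := hQ.mult (by omega)
  have hl := hQ.l_pos
  by_contra hcon
  push Not at hcon
  have hz : ((x : ℤ) - 1) * (x : ℤ) ^ 2 ≤ (y : ℤ) - x := by
    zify [show 1 ≤ x by omega, hxy.le] at hcon
    linarith
  refine Helper138QS.no_large (x := x) (z := (y : ℤ) - x) (m := m) (l := l) (by exact_mod_cast hx)
    hm hz (by exact_mod_cast hl) ?_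
  rw [show (x : ℤ) + ((y : ℤ) - x) = y by ring, ← hkm]
  exact hquad

end Pool.Agent.Results.MP_6202c5_co.DifferenceBound
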