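import Pool.Agent.Helper138_QS.FinE

/-!
MP_6202c5_co, Q1: for every `x ≥ 1` there are only finitely many nontrivial quasi-symmetric 3-designs with smaller
block intersection number `x`.
-/

set_option autoImplicit false

open Finset

namespace Pool.Agent.Results.MP_6202c5_co.FinitelyMany

/-- `𝓑` is the set of blocks of a `3-(v, k, l)` design without repeated blocks on the point set `Fin v`: all blocks
have `k` points, and every three points are contained in exactly `l` blocks -/
def IsThreeDesign {v : ℕ} (𝓑 : Finset (Finset (Fin v))) (k l : ℕ) : Prop :=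
  (∀ B ∈ 𝓑, B.card = k) ∧ ∀ T : Finset (Fin v), T.card = 3 → (𝓑.filter fun B => T ⊆ B).card = l

/-- the set of block intersection numbers -/
def intersectionNumbers {v : ℕ} (𝓑 : Finset (Finset (Fin v))) : Set ℕ :=
  {n | ∃ B ∈ 𝓑, ∃ B' ∈ 𝓑, B ≠ B' ∧ (B ∩ B').card = n}

/-- `𝓑` is a nontrivial quasi-symmetric 3-design with smaller block intersection number `x`: for some `k` with
`3 < k < v - 3` and some `l` it is a `3-(v, k, l)` design, and its intersection numbers are `x` and one larger
number -/
def IsQuasiSymmetric (x : ℕ) {v : ℕ} (𝓑 : Finset (Finset (Fin v))) : Prop :=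
  ∃ k l y : ℕ, 3 < k ∧ k + 3 < v ∧ IsThreeDesign 𝓑 k l ∧ x < y ∧ intersectionNumbers 𝓑 = {x, y}

/-- For every `x ≥ 1` there are only finitely many pairs `(v, 𝓑)` such that `𝓑` is a nontrivial quasi-symmetric
3-design on `v` points with smaller intersection number `x`. -/
theorem result (x : ℕ) (hx : 1 ≤ x) :
    {D : Σ v : ℕ, Finset (Finset (Fin v)) | IsQuasiSymmetric x D.2}.Finite := by
  obtain ⟨N, hN⟩ := Helper138QS.X.bd_all hx
  refine (Finset.finite_toSet (Finset.sigma (Finset.range (N + 1))
    (fun v => (Finset.univ : Finset (Finset (Finset (Fin v))))))).subset ?_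
  rintro ⟨v, 𝓑⟩ ⟨k, l, y, hk, hv, h, hxy, he⟩
  change k + 3 < v at hv
  have hx' : x ∈ intersectionNumbers 𝓑 := by rw [he]; exact Set.mem_insert _ _
  have hy' : y ∈ intersectionNumbers 𝓑 := by rw [he]; exact Set.mem_insert_of_mem _ rfl
  have hQ : Helper138QS.X.QS 𝓑 k l x y := by
    refine ⟨h.1, h.2, fun B hB B' hB' hne => ?_, hx', hy', hxy, hk.le, ?_⟩
    · have hm : (B ∩ B').card ∈ intersectionNumbers 𝓑 := ⟨B, hB, B', hB', hne, rfl⟩
      rw [he] at hm
      simpa using hm
    · rw [Fintype.card_fin]; omega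
  have h1 := hN hQ (by rw [Fintype.card_fin]; exact hv)
  rw [Fintype.card_fin] at h1
  simp only [Finset.mem_coe, Finset.mem_sigma, Finset.mem_range, Finset.mem_univ, and_true]
  omega

end Pool.Agent.Results.MP_6202c5_co.FinitelyMany
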