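import Pool.Agent.Helper138_QS.X2

/-!
MP_6202c5_co, Q1: no nontrivial quasi-symmetric 3-design has smaller block intersection number 2.
-/

set_option autoImplicit false

open Finset

namespace Pool.Agent.Results.MP_6202c5_co.SmallerIntersectionTwo

/-- `𝓑` is the set of blocks of a `3-(v, k, l)` design without repeated blocks on the point set `V`: all blocks have
`k` points, and every three points are contained in exactly `l` blocks -/
def IsThreeDesign {V : Type*} [Fintype V] [DecidableEq V] (𝓑 : Finset (Finset V)) (k l : ℕ) : Prop :=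
  (∀ B ∈ 𝓑, B.card = k) ∧ ∀ T : Finset V, T.card = 3 → (𝓑.filter fun B => T ⊆ B).card = l

/-- the set of block intersection numbers -/
def intersectionNumbers {V : Type*} [DecidableEq V] (𝓑 : Finset (Finset V)) : Set ℕ :=
  {n | ∃ B ∈ 𝓑, ∃ B' ∈ 𝓑, B ≠ B' ∧ (B ∩ B').card = n}

/-- There is no quasi-symmetric `3-(v, k, l)` design with `3 < k < v - 3` whose smaller block intersection number
is 2. -/
theorem result {V : Type*} [Fintype V] [DecidableEq V] {𝓑 : Finset (Finset V)} {k l : ℕ}
    (h : IsThreeDesign 𝓑 k l) (hk : 3 < k) (hv : k + 3 < Fintype.card V) {y : ℕ} (hy : 2 < y) :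
    intersectionNumbers 𝓑 ≠ {2, y} := by
  intro he
  have hx : 2 ∈ intersectionNumbers 𝓑 := by rw [he]; exact Set.mem_insert _ _
  have hy' : y ∈ intersectionNumbers 𝓑 := by rw [he]; exact Set.mem_insert_of_mem _ rfl
  refine Helper138QS.X.QS.x_ne_two (𝓑 := 𝓑) (k := k) (l := l) (y := y)
    ⟨h.1, h.2, fun B hB B' hB' hne => ?_, hx, hy', hy, hk.le, by omega⟩ hv
  have hm : (B ∩ B').card ∈ intersectionNumbers 𝓑 := ⟨B, hB, B', hB', hne, rfl⟩
  rw [he] at hm
  simpa using hm

end Pool.Agent.Results.MP_6202c5_co.SmallerIntersectionTwo
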